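import Pool.Agent.Q181.ExMap.Checker

/-!
# Certificates for the checker
-/

namespace Pool.Agent.Q181.ExMap

/-- the certificate for maximum degree `6` -/
def cert6 : List ℕ := [
  189594343521273099565796360584198944641479953546212817709451637659993844400804933510792919441218974893986672843229595218167251892342086118546258338648843200408557132271675849516509734273007626634583763730479139750528910940543926140308072244687094639202714173726550566589499610244595725049292935616807984373651202050601956780438539862158156075086002508082657894672438647278769863534816466656581170902533818479481708073222977021228081051037513112749056457839853465367013589556060001469109317526518788703466708335781513372770878302510354071356162174632369215750876135728439388419630913726639440853072958158938076424070748696659852639465981326704985345003899462876186993821831302181993912552717750012253910759653305220901434544843469562008654317461042391729311684571704765763880999405796198520586918596182991300663704721826967677989304047140471539080587339697491815744003131088822674943111501313990191407195633790075438761255004865603082762149230065896005385882408511347801845611497585295131405154565720825044207434304427833728915818830443190710269835973477921703248363500270364951140063476330535942566939943712807369701128890869235769974474791314798458188592836840754775706203470748759188264141649615837564152953067447534274006380224894814799033911076913672276995844667891595490067012157412231400543245412448632038567723131651403440394004741901582057931490280752018499483945806766662737896155068511129857756171980372233347741967012536365272640854153589089084043424212464647783890953007904060711615656615866184495529946327101648323142831247983184,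
  4840871288890170876476060726699423165173828585387000543151907808869327246484749175329981838367893705712625280237090086561806883578132499162693131253177385873478616728705054707483575927268738909352001
]

theorem cert6_ok : (run 6 294 (toks cert6) (T0 6) (F0 6)).isSome = true := by
  decide +kernel

/-- the certificate for maximum degree `7` -/
def cert7 : List ℕ := [
  364223956574255958544923270888774893654387640206750411428413899466051488867208666010454829445757910630535508798866862500704268225454022117500779987932253799876801542011594915231676759183857566288910583313769798893189614962085847528530669107917257981306191372582268785557846755681735783930883664281426208897115872825807690005611445111840645896103225867288964645691220902832188898943167264577945192355608827965762997630820255454144143127207365878570803838058531553973392311141249432927587624783024876131372748109389094985151053833671386647608225061142356380100079498164856654776814105397086697478069743652226545735007541196671371234660942175120596796584267302397179935539340010244202145090298432866673271906781453629443524409393317545554082468926151659429477077398122644860428328653082973638232448950193697873587701864076703434587960644837291919783494483429808644361369756040082437193421996013602574886852501287999582272377701661747567597274411222409442412592002161894732142570034668167567406503256737758463452381476974754242552163567323018264936649123404333976361152148295133270532580459886004158031708830112536087268584383724241481831603393221647937904728907259986842182535352194459228640036318176914401548573311998582525564070663183936602846211009338526087006902204664157770804460646436404613017559654875165320924517385924487400233408625107122548080681925529632056513631775627645790035224976459206273402601004365452027173257686191393438686639422360940966535167620127313779508705832748623114418889840490100410167283041788164980674627089990224,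
  4840871288890170876476060726699423165173828585387000543151907808869327246484749175329981838367893705712625280237090086561806883578132509189962596120711281115994303440660628466447935323105054161905729
]

theorem cert7_ok : (run 7 294 (toks cert7) (T0 7) (F0 7)).isSome = true := by
  decide +kernel

end Pool.Agent.Q181.ExMap
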