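import Mathlib

/-!
# A checked case distinction for graphs with eight vertices

A small verified checker. The state consists of two numbers `T`, `F` (sets of atoms known to be
true or false). A certificate is a list of tokens which describe a tree of case distinctions;
its leaves are contradictions with one of the listed facts.
-/

namespace Pool.Agent.Q181.ExMap

/-- index of the atom `a ~ b` -/
def xb (a b : ℕ) : ℕ := 8 * min a b + max a b

/-- index of the atom `c ∈ f(ab)` -/
def hb (a b c : ℕ) : ℕ := 64 + 8 * xb a b + c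

/-- the indices of the atoms `a ~ b`, `a < b` -/
def XL : List ℕ :=
  (List.range 64).filter fun p => decide (p / 8 < p % 8)

/-- the facts, as disjunctions of literals -/
def clause (D k : ℕ) : Option (List (ℕ × Bool)) :=
  let a := k / 4 % 8
  let b := k / 32 % 8
  let c := k / 256 % 8
  let d := k / 2048 % 8
  let g := k / 16384 % 8
  match k % 4 with
  | 0 => if a ≠ b ∧ b ≠ c ∧ a ≠ c then
      some [(xb a b, false), (xb b c, false), (hb a b c, true), (hb b c a, true)] else none
  | 1 => if a ≠ b ∧ c ≠ d ∧ d ≠ g ∧ c ≠ g then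
      some [(xb a b, false), (hb a b c, false), (hb a b d, false), (hb a b g, false)] else none
  | 2 => if a ≠ b ∧ c ≠ d then
      some [(xb a b, false), (hb a b c, false), (hb a b d, false), (xb c d, true)] else none
  | _ =>
    let L := (List.range 8).filter fun t => (k / 32).testBit t && t != a
    if D < L.length then some (L.map fun t => (xb a t, false)) else none

/-- a literal is known to be false -/
def fls (T F : ℕ) (l : ℕ × Bool) : Bool :=
  if l.2 then F.testBit l.1 else T.testBit l.1

/-- the checker -/
def run (D : ℕ) : ℕ → List ℕ → ℕ → ℕ → Option (List ℕ)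
  | 0, _, _, _ => none
  | _ + 1, [], _, _ => none
  | n + 1, t :: s, T, F =>
    match t % 8 with
    | 0 =>
      match run D n s (T ||| 1 <<< (t / 8)) F with
      | none => none
      | some s' => run D n s' T (F ||| 1 <<< (t / 8))
    | 1 =>
      match clause D (t / 8) with
      | none => none
      | some c =>
        match c.filter (fun l => !(fls T F l)) with
        | [l] => if l.2 then run D n s (T ||| 1 <<< l.1) F else run D n s T (F ||| 1 <<< l.1)
        | _ => none
    | 2 =>
      match clause D (t / 8) with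
      | none => none
      | some c => if c.all (fls T F) then some s else none
    | _ => if 15 ≤ (XL.filter fun p => F.testBit p).length then some s else none

/-- the tokens of a chunk -/
def digits : ℕ → ℕ → List ℕ
  | 0, _ => []
  | n + 1, m => if m ≤ 1 then [] else (m % 1048576) :: digits n (m / 1048576)

/-- the tokens of a list of chunks -/
def toks (L : List ℕ) : List ℕ := L.flatMap (digits 300)

/-- the initial facts: the vertex `0` has the neighbours `1, …, D` -/
def T0 (D : ℕ) : ℕ := ((List.range 8).filter fun t => decide (1 ≤ t ∧ t ≤ D)).foldl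
  (fun s t => s ||| 1 <<< t) 0

/-- the initial facts: the vertex `0` has the neighbours `1, …, D` -/
def F0 (D : ℕ) : ℕ := ((List.range 8).filter fun t => decide (D < t)).foldl
  (fun s t => s ||| 1 <<< t) 0

/-- the meaning of the atoms -/
def VV (A : ℕ → ℕ → Prop) (B : ℕ → ℕ → ℕ → Prop) (p : ℕ) : Prop :=
  if p < 64 then A (p / 8) (p % 8) else B ((p - 64) / 64) ((p - 64) / 8 % 8) ((p - 64) % 8)

section

variable {A : ℕ → ℕ → Prop} {B : ℕ → ℕ → ℕ → Prop}

theorem vv_xb (hA : ∀ a b, A a b → A b a) {a b : ℕ} (ha : a < 8) (hb : b < 8) :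
    VV A B (xb a b) ↔ A a b := by
  rcases le_total a b with h | h
  · have h1 : xb a b = 8 * a + b := by simp [xb, h]
    have h2 : (8 * a + b) / 8 = a := by omega
    have h3 : (8 * a + b) % 8 = b := by omega
    rw [VV, h1, if_pos (by omega), h2, h3]
  · have h1 : xb a b = 8 * b + a := by simp [xb, h]
    have h2 : (8 * b + a) / 8 = b := by omega
    have h3 : (8 * b + a) % 8 = a := by omega
    rw [VV, h1, if_pos (by omega), h2, h3]
    exact ⟨hA _ _, hA _ _⟩

theorem vv_hb (hB : ∀ a b c, B a b c → B b a c) {a b c : ℕ} (ha : a < 8) (hb' : b < 8)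
    (hc : c < 8) : VV A B (hb a b c) ↔ B a b c := by
  rcases le_total a b with h | h
  · have h1 : hb a b c = 64 + (64 * a + 8 * b + c) := by simp [hb, xb, h]; ring
    have h2 : (64 + (64 * a + 8 * b + c) - 64) / 64 = a := by omega
    have h3 : (64 + (64 * a + 8 * b + c) - 64) / 8 % 8 = b := by omega
    have h4 : (64 + (64 * a + 8 * b + c) - 64) % 8 = c := by omega
    rw [VV, h1, if_neg (by omega), h2, h3, h4]
  · have h1 : hb a b c = 64 + (64 * b + 8 * a + c) := by simp [hb, xb, h]; ring
    have h2 : (64 + (64 * b + 8 * a + c) - 64) / 64 = b := by omega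
    have h3 : (64 + (64 * b + 8 * a + c) - 64) / 8 % 8 = a := by omega
    have h4 : (64 + (64 * b + 8 * a + c) - 64) % 8 = c := by omega
    rw [VV, h1, if_neg (by omega), h2, h3, h4]
    exact ⟨hB _ _ _, hB _ _ _⟩

/-- the facts used by the checker -/
structure Facts (A : ℕ → ℕ → Prop) (B : ℕ → ℕ → ℕ → Prop) (D : ℕ) : Prop where
  symmA : ∀ a b, A a b → A b a
  symmB : ∀ a b c, B a b c → B b a c
  path : ∀ a b c, a < 8 → b < 8 → c < 8 → a ≠ b → b ≠ c → a ≠ c → A a b → A b c →
    B a b c ∨ B b c a
  three : ∀ a b c d g, a < 8 → b < 8 → c < 8 → d < 8 → g < 8 → a ≠ b → c ≠ d → d ≠ g →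
    c ≠ g → A a b → ¬ (B a b c ∧ B a b d ∧ B a b g)
  edge : ∀ a b c d, a < 8 → b < 8 → c < 8 → d < 8 → a ≠ b → c ≠ d → A a b → B a b c →
    B a b d → A c d
  degree : ∀ u, u < 8 → ∀ L : List ℕ, L.Nodup → (∀ t ∈ L, t < 8 ∧ t ≠ u ∧ A u t) →
    L.length ≤ D
  card : ∀ L : List ℕ, L.Nodup → (∀ p ∈ L, p / 8 < p % 8 ∧ p < 64 ∧ ¬ A (p / 8) (p % 8)) →
    L.length ≤ 14

/-- a literal holds -/
def Holds (A : ℕ → ℕ → Prop) (B : ℕ → ℕ → ℕ → Prop) (l : ℕ × Bool) : Prop :=
  if l.2 then VV A B l.1 else ¬ VV A B l.1

theorem clause_holds {D : ℕ} (h : Facts A B D) (k : ℕ) (c : List (ℕ × Bool))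
    (hc : clause D k = some c) : ∃ l ∈ c, Holds A B l := by
  have l8 : ∀ n : ℕ, n % 8 < 8 := fun n => Nat.mod_lt _ (by norm_num)
  by_contra hno
  push Not at hno
  unfold clause at hc
  simp only at hc
  split at hc
  · split_ifs at hc with hh
    obtain ⟨h1, h2, h3⟩ := hh
    simp only [Option.some.injEq] at hc
    subst hc
    simp only [Holds, List.mem_cons, forall_eq_or_imp, List.not_mem_nil, false_implies,
      implies_true, and_true, if_true, Bool.false_eq_true, if_false, not_not] at hno
    rw [vv_xb h.symmA (l8 _) (l8 _), vv_xb h.symmA (l8 _) (l8 _), vv_hb h.symmB (l8 _) (l8 _) (l8 _),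
      vv_hb h.symmB (l8 _) (l8 _) (l8 _)] at hno
    obtain ⟨p1, p2, p3, p4⟩ := hno
    rcases h.path _ _ _ (l8 _) (l8 _) (l8 _) h1 h2 h3 p1 p2 with q | q
    · exact p3 q
    · exact p4 q
  · split_ifs at hc with hh
    obtain ⟨h1, h2, h3, h4⟩ := hh
    simp only [Option.some.injEq] at hc
    subst hc
    simp only [Holds, List.mem_cons, forall_eq_or_imp, List.not_mem_nil, false_implies,
      implies_true, and_true, if_true, Bool.false_eq_true, if_false, not_not] at hno
    rw [vv_xb h.symmA (l8 _) (l8 _), vv_hb h.symmB (l8 _) (l8 _) (l8 _),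
      vv_hb h.symmB (l8 _) (l8 _) (l8 _), vv_hb h.symmB (l8 _) (l8 _) (l8 _)] at hno
    obtain ⟨p1, p2, p3, p4⟩ := hno
    exact h.three _ _ _ _ _ (l8 _) (l8 _) (l8 _) (l8 _) (l8 _) h1 h2 h3 h4 p1 ⟨p2, p3, p4⟩
  · split_ifs at hc with hh
    obtain ⟨h1, h2⟩ := hh
    simp only [Option.some.injEq] at hc
    subst hc
    simp only [Holds, List.mem_cons, forall_eq_or_imp, List.not_mem_nil, false_implies,
      implies_true, and_true, if_true, Bool.false_eq_true, if_false, not_not] at hno
    rw [vv_xb h.symmA (l8 _) (l8 _), vv_hb h.symmB (l8 _) (l8 _) (l8 _),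
      vv_hb h.symmB (l8 _) (l8 _) (l8 _), vv_xb h.symmA (l8 _) (l8 _)] at hno
    obtain ⟨p1, p2, p3, p4⟩ := hno
    exact p4 (h.edge _ _ _ _ (l8 _) (l8 _) (l8 _) (l8 _) h1 h2 p1 p2 p3)
  · split_ifs at hc with hh
    simp only [Option.some.injEq] at hc
    subst hc
    refine absurd (h.degree (k / 4 % 8) (l8 _)
      ((List.range 8).filter fun t => (k / 32).testBit t && t != k / 4 % 8)
      (List.nodup_range.filter _) ?_) (by omega)
    intro t ht
    have h1 := List.mem_filter.mp ht
    have h2 : t < 8 := List.mem_range.mp h1.1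
    have h3 : t ≠ k / 4 % 8 := by
      have := h1.2
      rw [Bool.and_eq_true, bne_iff_ne] at this
      exact this.2
    refine ⟨h2, h3, ?_⟩
    have h4 := hno (xb (k / 4 % 8) t, false) (List.mem_map.mpr ⟨t, ht, rfl⟩)
    simp only [Holds, Bool.false_eq_true, if_false, not_not] at h4
    exact (vv_xb h.symmA (l8 _) h2).mp h4

/-- the state is correct -/
def Compat (A : ℕ → ℕ → Prop) (B : ℕ → ℕ → ℕ → Prop) (T F : ℕ) : Prop :=
  (∀ i, T.testBit i = true → VV A B i) ∧ ∀ i, F.testBit i = true → ¬ VV A B i

theorem testBit_or_shift (T k i : ℕ) :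
    (T ||| 1 <<< k).testBit i = true ↔ T.testBit i = true ∨ i = k := by
  rw [Nat.testBit_or, Bool.or_eq_true, Nat.shiftLeft_eq, one_mul, Nat.testBit_two_pow]
  simp only [decide_eq_true_eq]
  exact or_congr_right eq_comm

theorem compat_T {T F k : ℕ} (h : Compat A B T F) (hk : VV A B k) :
    Compat A B (T ||| 1 <<< k) F := by
  refine ⟨fun i hi => ?_, h.2⟩
  rcases (testBit_or_shift T k i).mp hi with h1 | rfl
  · exact h.1 i h1
  · exact hk

theorem compat_F {T F k : ℕ} (h : Compat A B T F) (hk : ¬ VV A B k) :
    Compat A B T (F ||| 1 <<< k) := by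
  refine ⟨h.1, fun i hi => ?_⟩
  rcases (testBit_or_shift F k i).mp hi with h1 | rfl
  · exact h.2 i h1
  · exact hk

theorem not_fls {T F : ℕ} (h : Compat A B T F) {l : ℕ × Bool} (hl : Holds A B l) :
    fls T F l = false := by
  unfold Holds at hl
  unfold fls
  cases h2 : l.2
  · rw [h2] at hl
    simp only [Bool.false_eq_true, if_false] at hl ⊢
    by_contra h3
    exact hl (h.1 _ (by simpa using h3))
  · rw [h2] at hl
    simp only [if_true] at hl ⊢
    by_contra h3
    exact h.2 _ (by simpa using h3) hl

theorem run_sound {D : ℕ} (h : Facts A B D) (n : ℕ) : ∀ (s : List ℕ) (T F : ℕ) (s' : List ℕ),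
    run D n s T F = some s' → ¬ Compat A B T F := by
  induction n with
  | zero => intro s T F s' hr; simp [run] at hr
  | succ n ih =>
    intro s T F s' hr hc
    cases s with
    | nil => simp [run] at hr
    | cons t s =>
      rw [run] at hr
      split at hr
      · split at hr
        · simp at hr
        · rename_i s1 h1
          by_cases hk : VV A B (t / 8)
          · exact ih _ _ _ _ h1 (compat_T hc hk)
          · exact ih _ _ _ _ hr (compat_F hc hk)
      · split at hr
        · simp at hr
        · rename_i c hcl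
          obtain ⟨l, hl, hh⟩ := clause_holds h _ _ hcl
          have hmem : l ∈ c.filter (fun l => !(fls T F l)) :=
            List.mem_filter.mpr ⟨hl, by rw [not_fls hc hh]; rfl⟩
          split at hr
          · rename_i l' hfl
            rw [hfl, List.mem_singleton] at hmem
            subst hmem
            unfold Holds at hh
            split_ifs at hr with h2
            · rw [if_pos h2] at hh
              exact ih _ _ _ _ hr (compat_T hc hh)
            · rw [if_neg h2] at hh
              exact ih _ _ _ _ hr (compat_F hc hh)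
          · simp at hr
      · split at hr
        · simp at hr
        · rename_i c hcl
          obtain ⟨l, hl, hh⟩ := clause_holds h _ _ hcl
          split_ifs at hr with h2
          have := List.all_eq_true.mp h2 l hl
          rw [not_fls hc hh] at this
          exact absurd this (by simp)
      · split_ifs at hr with h2
        have h3 := h.card (XL.filter fun p => F.testBit p)
          ((List.nodup_range.filter _).filter _) (by
            intro p hp
            have h4 := List.mem_filter.mp hp
            have h5 := List.mem_filter.mp h4.1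
            have h6 : p < 64 := List.mem_range.mp h5.1
            have h7 : p / 8 < p % 8 := by simpa using h5.2
            refine ⟨h7, h6, ?_⟩
            have h8 := hc.2 p h4.2
            rwa [VV, if_pos h6] at h8)
        omega

end

end Pool.Agent.Q181.ExMap
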